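import Pool.Agent.Run7.h276.DX.Iface

/- Project DX (helper276); this piece was written by helper40. -/


/-! Piece FP of the project DX of helper276 (by helper40). -/

set_option autoImplicit false

namespace Run7.h40.DX

open Matrix Run7.h276.DX

theorem coe_incl (k : K) : ((incl k : GL (Fin 2) ℚ) : Matrix (Fin 2) (Fin 2) ℚ) =
    k.1.map (Int.castRingHom ℚ) := rfl

theorem incl_rel {g g' : K} (h : rel g g') : incl g * T = T * incl g' := by
  obtain ⟨h1, h2, h3, h4⟩ := h
  apply Units.ext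
  rw [Matrix.GeneralLinearGroup.coe_mul, Matrix.GeneralLinearGroup.coe_mul, coe_incl, coe_incl]
  ext a b
  fin_cases a <;> fin_cases b <;>
    simp [T, Matrix.mul_apply, Fin.sum_univ_two, h1, h2, h3, h4, mul_comm]

/-- the central element -/
noncomputable def C : GL (Fin 2) ℚ := T * incl w * T * (incl w)⁻¹

theorem coe_C : (C : Matrix (Fin 2) (Fin 2) ℚ) = (2 : ℚ) • 1 := by
  have h : (w⁻¹ : K).1 = !![0, 1; -1, 0] := by
    show Matrix.adjugate w.1 = _
    rw [Matrix.adjugate_fin_two]
    simp [w]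
  have hw : w.1.map (Int.castRingHom ℚ) = !![0, -1; 1, 0] := by
    ext a b
    fin_cases a <;> fin_cases b <;> simp [w]
  have hwi : (!![0, 1; -1, 0] : Matrix (Fin 2) (Fin 2) ℤ).map (Int.castRingHom ℚ) =
      !![0, 1; -1, 0] := by
    ext a b
    fin_cases a <;> fin_cases b <;> simp
  have hT : ((T : GL (Fin 2) ℚ) : Matrix (Fin 2) (Fin 2) ℚ) = !![2, 0; 0, 1] := rfl
  rw [C, ← map_inv, Matrix.GeneralLinearGroup.coe_mul, Matrix.GeneralLinearGroup.coe_mul,
    Matrix.GeneralLinearGroup.coe_mul, coe_incl, coe_incl, h, hw, hwi, hT, Matrix.mul_fin_two,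
    Matrix.mul_fin_two, Matrix.mul_fin_two]
  ext a b
  fin_cases a <;> fin_cases b <;> norm_num

theorem C_comm (X : GL (Fin 2) ℚ) : C * X = X * C := by
  apply Units.ext
  rw [Matrix.GeneralLinearGroup.coe_mul, Matrix.GeneralLinearGroup.coe_mul, coe_C]
  simp

theorem t_FP (hSL : S_SL) (hINJ : S_INJ) (hKT : S_KT) : S_FP := by
  obtain ⟨F, hF, hall⟩ := hKT
  have hSL' : Group.IsFinitelyPresented K := hSL
  obtain ⟨n, φ, hφ, -⟩ := hSL.out
  let P := Monoid.Coprod K (Multiplicative ℤ)
  let il : K →* P := Monoid.Coprod.inl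
  let tP : P := Monoid.Coprod.inr (Multiplicative.ofAdd 1)
  let c : P := tP * il w * tP * (il w)⁻¹
  let R1 : Set P := (fun x : K × K => il x.1 * tP * (il x.2)⁻¹ * tP⁻¹) '' (F : Set (K × K))
  let R2 : Set P := Set.range (fun j : Fin n => c * il (φ (FreeGroup.of j)) * c⁻¹ *
    (il (φ (FreeGroup.of j)))⁻¹)
  let R3 : Set P := {c * tP * c⁻¹ * tP⁻¹}
  let R : Set P := R1 ∪ R2 ∪ R3
  have hRfin : R.Finite := ((F.finite_toSet.image _).union (Set.finite_range _)).union
    (Set.finite_singleton _)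
  let N : Subgroup P := Subgroup.normalClosure R
  have hN : N.IsFinitelyNormallyGenerated := ⟨R, hRfin, rfl⟩
  have hfp : Group.IsFinitelyPresented (P ⧸ N) := Group.IsFinitelyPresented.quotient N hN
  let ρ0 : P →* GL (Fin 2) ℚ := Monoid.Coprod.lift incl (zpowersHom _ T)
  have h0l : ∀ k, ρ0 (il k) = incl k := fun k => Monoid.Coprod.lift_apply_inl _ _ _
  have h0t : ρ0 tP = T := by
    show Monoid.Coprod.lift incl (zpowersHom _ T) (Monoid.Coprod.inr (Multiplicative.ofAdd 1)) = T
    rw [Monoid.Coprod.lift_apply_inr]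
    simp
  have h0c : ρ0 c = C := by
    show ρ0 (tP * il w * tP * (il w)⁻¹) = _
    rw [map_mul, map_mul, map_mul, map_inv, h0l, h0t, C]
  have hker : N ≤ ρ0.ker := by
    apply Subgroup.normalClosure_le_normal
    rintro x ((⟨y, hy, rfl⟩ | ⟨j, rfl⟩) | hx)
    · show ρ0 (il y.1 * tP * (il y.2)⁻¹ * tP⁻¹) = 1
      rw [map_mul, map_mul, map_mul, map_inv, map_inv, h0l, h0l, h0t, incl_rel (hF y hy)]
      group
    · show ρ0 (c * il (φ (FreeGroup.of j)) * c⁻¹ * (il (φ (FreeGroup.of j)))⁻¹) = 1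
      rw [map_mul, map_mul, map_mul, map_inv, map_inv, h0c, C_comm]
      group
    · rw [Set.mem_singleton_iff.1 hx]
      show ρ0 (c * tP * c⁻¹ * tP⁻¹) = 1
      rw [map_mul, map_mul, map_mul, map_inv, map_inv, h0c, C_comm]
      group
  let π : P →* P ⧸ N := QuotientGroup.mk' N
  let ρ : P ⧸ N →* GL (Fin 2) ℚ := QuotientGroup.lift N ρ0 hker
  have hρ : ∀ x, ρ (π x) = ρ0 x := fun x => QuotientGroup.lift_mk' N hker x
  have hR : ∀ x ∈ R, π x = 1 := fun x hx =>
    (QuotientGroup.eq_one_iff x).2 (Subgroup.subset_normalClosure hx)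
  let i : K →* P ⧸ N := π.comp il
  let t : P ⧸ N := π tP
  have h1 : ∀ g, ρ (i g) = incl g := fun g => (hρ _).trans (h0l g)
  have h2 : ρ t = T := (hρ _).trans h0t
  have hcl : Subgroup.closure (Set.range i ∪ {t}) = ⊤ := by
    rw [eq_top_iff]
    rintro x -
    obtain ⟨x, rfl⟩ := QuotientGroup.mk'_surjective N x
    induction x using Monoid.Coprod.induction_on with
    | inl k => exact Subgroup.subset_closure (Or.inl ⟨k, rfl⟩)
    | inr a =>
      have : (Monoid.Coprod.inr a : P) = tP ^ (Multiplicative.toAdd a) := by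
        show _ = (Monoid.Coprod.inr (Multiplicative.ofAdd 1) : P) ^ _
        rw [← map_zpow, ← ofAdd_zsmul]
        simp
      rw [this, map_zpow]
      exact Subgroup.zpow_mem _ (Subgroup.subset_closure (show t ∈ Set.range i ∪ {t} from Or.inr rfl)) _
    | mul x y hx hy =>
      rw [map_mul]
      exact Subgroup.mul_mem _ hx hy
  have hF' : ∀ x ∈ F, i x.1 * t = t * i x.2 := by
    intro x hx
    have := hR _ (Or.inl (Or.inl ⟨x, hx, rfl⟩))
    simp only [map_mul, map_inv] at this
    rw [mul_inv_eq_one, mul_inv_eq_iff_eq_mul] at this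
    exact this
  have hrel := hall (P ⧸ N) i t hF'
  have hcc : π c = t * i w * t * (i w)⁻¹ := by
    show π (tP * il w * tP * (il w)⁻¹) = _
    simp only [map_mul, map_inv]
    rfl
  have hcg : ∀ g : K, (t * i w * t * (i w)⁻¹) * i g = i g * (t * i w * t * (i w)⁻¹) := by
    intro g
    obtain ⟨y, rfl⟩ := hφ g
    rw [← hcc]
    induction y using FreeGroup.induction_on with
    | C1 => simp
    | of j =>
      have := hR _ (Or.inl (Or.inr ⟨j, rfl⟩))
      simp only [map_mul, map_inv] at this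
      rw [mul_inv_eq_one, mul_inv_eq_iff_eq_mul] at this
      exact this
    | inv_of j h =>
      rw [map_inv, map_inv]
      exact (Commute.inv_right (show Commute _ _ from h)).eq
    | mul x y hx hy =>
      rw [map_mul φ x y, map_mul i]
      exact (Commute.mul_right (show Commute _ _ from hx) (show Commute _ _ from hy)).eq
  have hct : (t * i w * t * (i w)⁻¹) * t = t * (t * i w * t * (i w)⁻¹) := by
    rw [← hcc]
    have := hR _ (Or.inr rfl)
    simp only [map_mul, map_inv] at this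
    rw [mul_inv_eq_one, mul_inv_eq_iff_eq_mul] at this
    exact this
  have hinj : Function.Injective ρ := hINJ (P ⧸ N) i t ρ h1 h2 hcl hrel hcg hct
  have hrange : ρ.range = G := by
    rw [MonoidHom.range_eq_map, ← hcl, MonoidHom.map_closure, G]
    congr 1
    ext x
    constructor
    · rintro ⟨y, (⟨k, rfl⟩ | hy), rfl⟩
      · exact Or.inl ⟨k, (h1 k).symm⟩
      · rw [Set.mem_singleton_iff.1 hy, h2]
        exact Or.inr rfl
    · rintro (⟨k, rfl⟩ | hx)
      · exact ⟨i k, Or.inl ⟨k, rfl⟩, h1 k⟩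
      · rw [Set.mem_singleton_iff.1 hx]
        exact ⟨t, Or.inr rfl, h2⟩
  exact Group.IsFinitelyPresented.equiv ((MonoidHom.ofInjective hinj).trans
    (MulEquiv.subgroupCongr hrange)) (h := hfp)

end Run7.h40.DX
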