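import Pool.Agent.Run7.h276.DX.Iface

/- Project DX (helper276); this piece was written by helper40. -/


/-! Piece INJ of the project DX of helper276 (by helper40). -/

set_option autoImplicit false

namespace Run7.h40.DX

open Matrix Run7.h276.DX

/-- positive words -/
inductive Pos {Γ : Type} [Group Γ] (i : K →* Γ) (t : Γ) : ℕ → Γ → Matrix (Fin 2) (Fin 2) ℤ → Prop
  | zero (k : K) : Pos i t 0 (i k) k.1
  | succ (l : ℕ) (k : K) (m : Γ) (M : Matrix (Fin 2) (Fin 2) ℤ) (h : Pos i t l m M) :
      Pos i t (l + 1) (i k * t * m) (k.1 * D * M)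

theorem det_D : D.det = 2 := by simp [D, Matrix.det_fin_two]

theorem det_D' : D'.det = 2 := by simp [D', Matrix.det_fin_two]

theorem wDw (B : Matrix (Fin 2) (Fin 2) ℤ) : w.1 * D * ((w⁻¹ : K).1 * B) = D' * B := by
  rw [← Matrix.mul_assoc]
  congr 1
  have : (w⁻¹ : K).1 = !![0, 1; -1, 0] := by
    show Matrix.adjugate w.1 = _
    rw [Matrix.adjugate_fin_two]
    simp [w]
  rw [this]
  simp [w, D, D']

theorem DDp (B : Matrix (Fin 2) (Fin 2) ℤ) : D * (D' * B) = (2 : ℤ) • B := by
  rw [← Matrix.mul_assoc]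
  have : D * D' = (2 : ℤ) • (1 : Matrix (Fin 2) (Fin 2) ℤ) := by
    ext a b
    fin_cases a <;> fin_cases b <;> simp [D, D', Matrix.mul_apply, Fin.sum_univ_two]
  rw [this]
  simp

section

variable {Γ : Type} [Group Γ] {i : K →* Γ} {t : Γ}

theorem Pos.left {l : ℕ} {m : Γ} {M : Matrix (Fin 2) (Fin 2) ℤ} (h : Pos i t l m M) (k : K) :
    Pos i t l (i k * m) (k.1 * M) := by
  cases h with
  | zero k' =>
    have := Pos.zero (i := i) (t := t) (k * k')
    rwa [map_mul] at this
  | succ l k' m M h =>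
    have := Pos.succ l (k * k') m M h
    rw [map_mul] at this
    have e1 : i k * (i k' * t * m) = i k * i k' * t * m := by simp only [mul_assoc]
    have e2 : k.1 * (k'.1 * D * M) = (k * k').1 * D * M := by
      show _ = k.1 * k'.1 * D * M
      simp only [Matrix.mul_assoc]
    rw [e1, e2]
    exact this

theorem Pos.det {l : ℕ} {m : Γ} {M : Matrix (Fin 2) (Fin 2) ℤ} (h : Pos i t l m M) :
    M.det = 2 ^ l := by
  induction h with
  | zero k => rw [pow_zero]; exact k.2
  | succ l k m M h ih =>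
    rw [Matrix.det_mul, Matrix.det_mul, ih, det_D, pow_succ, k.2]
    ring

theorem Pos.map (ρ : Γ →* GL (Fin 2) ℚ) (h1 : ∀ g, ρ (i g) = incl g) (h2 : ρ t = T)
    {l : ℕ} {m : Γ} {M : Matrix (Fin 2) (Fin 2) ℤ} (h : Pos i t l m M) :
    ((ρ m : GL (Fin 2) ℚ) : Matrix (Fin 2) (Fin 2) ℚ) = M.map (Int.castRingHom ℚ) := by
  have hin : ∀ k : K, ((incl k : GL (Fin 2) ℚ) : Matrix (Fin 2) (Fin 2) ℚ) =
      k.1.map (Int.castRingHom ℚ) := fun k => rfl
  induction h with
  | zero k => rw [h1]; rfl
  | succ l k m M h ih =>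
    rw [map_mul, map_mul, h1, h2, Matrix.GeneralLinearGroup.coe_mul,
      Matrix.GeneralLinearGroup.coe_mul, ih, hin, Matrix.map_mul, Matrix.map_mul]
    congr 2
    ext a b
    fin_cases a <;> fin_cases b <;> simp [T, D]

theorem exists_pos (hS : S_STEP) (l : ℕ) : ∀ M : Matrix (Fin 2) (Fin 2) ℤ, M.det = 2 ^ l →
    ∃ m, Pos i t l m M := by
  induction l with
  | zero =>
    intro M hM
    rw [pow_zero] at hM
    exact ⟨i ⟨M, hM⟩, Pos.zero (i := i) (t := t) ⟨M, hM⟩⟩
  | succ l ih =>
    intro M hM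
    obtain ⟨k, M', rfl, hM'⟩ := hS l M hM
    obtain ⟨m, hm⟩ := ih M' hM'
    exact ⟨_, Pos.succ l k m M' hm⟩

theorem Pos.wt {l : ℕ} {b : Γ} {B : Matrix (Fin 2) (Fin 2) ℤ} (h : Pos i t l b B) :
    Pos i t (l + 1) (i w * t * ((i w)⁻¹ * b)) (D' * B) := by
  rw [← wDw, ← map_inv]
  exact Pos.succ l w _ _ (h.left w⁻¹)

theorem Pos.uniq (hS : S_STEP) (hC : S_CASE)
    (hrel : ∀ g g' : K, rel g g' → i g * t = t * i g')
    (hc : ∀ g : K, (t * i w * t * (i w)⁻¹) * i g = i g * (t * i w * t * (i w)⁻¹))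
    (l : ℕ) : ∀ (m m' : Γ) (M : Matrix (Fin 2) (Fin 2) ℤ), Pos i t l m M → Pos i t l m' M →
      m = m' := by
  induction l using Nat.strong_induction_on with
  | _ l ih =>
    intro m m' M h h'
    cases h with
    | zero k =>
      generalize hM : k.1 = M at h'
      cases h' with
      | zero k' => rw [Subtype.ext hM]
    | succ l k a A hA =>
      generalize hM : k.1 * D * A = M at h'
      cases h' with
      | succ _ k' a' A' hA' =>
        rcases hC k k' A A' hM with ⟨γ, γ', rfl, hr, rfl⟩ | ⟨B, B', rfl, rfl, hB⟩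
        · have h1 := ih l (Nat.lt_succ_self l) _ _ _ hA (hA'.left γ')
          rw [h1, map_mul, mul_assoc (i k) (i γ), hrel γ γ' hr]
          simp only [mul_assoc]
        · have hdet := hA.det
          have hdet' := hA'.det
          rw [Matrix.det_mul, det_D'] at hdet hdet'
          rcases l with _ | l
          · rw [pow_zero] at hdet
            omega
          · have hb : B.det = 2 ^ l := by rw [pow_succ] at hdet; omega
            have hb' : B'.det = 2 ^ l := by rw [pow_succ] at hdet'; omega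
            obtain ⟨b, hb⟩ := exists_pos (i := i) (t := t) hS l B hb
            obtain ⟨b', hb'⟩ := exists_pos (i := i) (t := t) hS l B' hb'
            have h1 := ih (l + 1) (Nat.lt_succ_self _) _ _ _ hA hb.wt
            have h2 := ih (l + 1) (Nat.lt_succ_self _) _ _ _ hA' hb'.wt
            have h3 := ih l (by omega) _ _ _ (hb.left k) (hB ▸ hb'.left k')
            have h4 : ∀ (g : K) (x : Γ), i g * t * (i w * t * ((i w)⁻¹ * x)) =
                (t * i w * t * (i w)⁻¹) * (i g * x) := by
              intro g x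
              rw [← mul_assoc (t * i w * t * (i w)⁻¹), hc]
              simp only [mul_assoc]
            rw [h1, h2, h4, h4, h3]

end

theorem t_INJ (hS : S_STEP) (hC : S_CASE) : S_INJ := by
  intro Γ _ i t ρ h1 h2 hcl hrel hc hct
  set c := t * i w * t * (i w)⁻¹ with hcdef
  have hcn : ∀ (n : ℕ) (g : K), c ^ n * i g = i g * c ^ n := fun n g =>
    (Commute.pow_left (show Commute c (i g) from hc g) n).eq
  have hctn : ∀ n : ℕ, c ^ n * t = t * c ^ n := fun n =>
    (Commute.pow_left (show Commute c t from hct) n).eq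
  have key : ∀ γ : Γ, ∃ (n l : ℕ) (M : Matrix (Fin 2) (Fin 2) ℤ), Pos i t l (c ^ n * γ) M := by
    intro γ
    have hγ : γ ∈ Subgroup.closure (Set.range i ∪ {t}) := by rw [hcl]; trivial
    induction hγ using Subgroup.closure_induction_left with
    | one =>
      refine ⟨0, 0, (1 : K).1, ?_⟩
      have := Pos.zero (i := i) (t := t) 1
      rw [map_one] at this
      simpa using this
    | mul_left x hx y _ ih =>
      obtain ⟨n, l, M, h⟩ := ih
      rcases hx with ⟨k, rfl⟩ | hx
      · refine ⟨n, l, k.1 * M, ?_⟩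
        rw [← mul_assoc, hcn, mul_assoc]
        exact h.left k
      · rw [Set.mem_singleton_iff] at hx
        subst hx
        refine ⟨n, l + 1, (1 : K).1 * D * M, ?_⟩
        have := Pos.succ l 1 _ M h
        rw [map_one, one_mul] at this
        rw [← mul_assoc, hctn, mul_assoc]
        exact this
    | inv_mul_cancel x hx y _ ih =>
      obtain ⟨n, l, M, h⟩ := ih
      rcases hx with ⟨k, rfl⟩ | hx
      · refine ⟨n, l, (k⁻¹ : K).1 * M, ?_⟩
        rw [← map_inv, ← mul_assoc, hcn, mul_assoc]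
        exact h.left k⁻¹
      · rw [Set.mem_singleton_iff] at hx
        subst hx
        refine ⟨n + 1, l + 1, D' * M, ?_⟩
        have h3 := h.wt
        have h4 : c ^ (n + 1) * (x⁻¹ * y) = i w * x * ((i w)⁻¹ * (c ^ n * y)) := by
          have h5 : c * x⁻¹ = x⁻¹ * c := by
            rw [eq_inv_mul_iff_mul_eq, ← mul_assoc, ← hct, mul_assoc, mul_inv_cancel, mul_one]
          have h6 : c ^ (n + 1) * x⁻¹ = x⁻¹ * c ^ (n + 1) :=
            (Commute.pow_left (show Commute c x⁻¹ from h5) (n + 1)).eq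
          have h7 : x⁻¹ * c = i w * x * (i w)⁻¹ := by
            rw [hcdef]
            simp only [mul_assoc, inv_mul_cancel_left]
          rw [← mul_assoc, h6, pow_succ', ← mul_assoc (x⁻¹), h7]
          simp only [mul_assoc]
        rw [h4]
        exact h3
  have hcp : ∀ n : ℕ, Pos i t (2 * n) (c ^ n) ((2 : ℤ) ^ n • (1 : Matrix (Fin 2) (Fin 2) ℤ)) := by
    intro n
    induction n with
    | zero =>
      have := Pos.zero (i := i) (t := t) 1
      rw [map_one] at this
      simpa using this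
    | succ n ih =>
      have h3 := Pos.succ _ 1 _ _ ih.wt
      rw [map_one, one_mul] at h3
      have h4 : (1 : K).1 * D * (D' * ((2 : ℤ) ^ n • (1 : Matrix (Fin 2) (Fin 2) ℤ))) =
          (2 : ℤ) ^ (n + 1) • (1 : Matrix (Fin 2) (Fin 2) ℤ) := by
        have : ((1 : K).1 : Matrix (Fin 2) (Fin 2) ℤ) = 1 := rfl
        rw [this, one_mul, DDp, smul_smul, pow_succ, mul_comm]
      rw [h4] at h3
      have h5 : t * (i w * t * ((i w)⁻¹ * c ^ n)) = c ^ (n + 1) := by
        rw [pow_succ', hcdef]
        simp only [mul_assoc]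
      rw [h5] at h3
      exact h3
  rw [injective_iff_map_eq_one]
  intro γ hγ
  obtain ⟨n, l, M, h⟩ := key γ
  have hM1 := h.map ρ h1 h2
  have hM2 := (hcp n).map ρ h1 h2
  rw [map_mul, hγ, mul_one, hM2] at hM1
  have hM : M = (2 : ℤ) ^ n • (1 : Matrix (Fin 2) (Fin 2) ℤ) := by
    have hinj : Function.Injective (Int.castRingHom ℚ) := (Int.castRingHom ℚ).injective_int
    exact (Matrix.map_injective hinj hM1).symm
  subst hM
  have hl : l = 2 * n := by
    have e1 := h.det
    have e2 := (hcp n).det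
    rw [e2] at e1
    have : (2 : ℕ) ^ (2 * n) = 2 ^ l := by exact_mod_cast e1
    exact (Nat.pow_right_injective le_rfl this).symm
  subst hl
  have := Pos.uniq hS hC hrel hc _ _ _ _ h (hcp n)
  exact mul_eq_left.1 this

end Run7.h40.DX
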