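import Pool.Agent.Run7.h276.DX.Iface

/- Project DX (helper276); this piece was written by helper586. -/


/-!
# The piece KT of `Run7.h276.DX` (helper586)
-/

set_option autoImplicit false

namespace Run7.h586.DX

open Run7.h276.DX Matrix

theorem rel_mul {a b a' b' : K} (h : rel a a') (k : rel b b') : rel (a * b) (a' * b') := by
  obtain ⟨h1, h2, h3, h4⟩ := h
  obtain ⟨k1, k2, k3, k4⟩ := k
  have e1 : (a * b).1 = a.1 * b.1 := rfl
  have e2 : (a' * b').1 = a'.1 * b'.1 := rfl
  refine ⟨?_, ?_, ?_, ?_⟩ <;>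
  · rw [e1, e2]
    simp only [Matrix.mul_apply, Fin.sum_univ_two, h1, h2, h3, h4, k1, k2, k3, k4]
    ring

theorem rel_one : rel 1 1 := by
  refine ⟨?_, ?_, ?_, ?_⟩ <;> simp

theorem rel_inv {a a' : K} (h : rel a a') : rel a⁻¹ a'⁻¹ := by
  obtain ⟨h1, h2, h3, h4⟩ := h
  refine ⟨?_, ?_, ?_, ?_⟩ <;>
  · simp [Matrix.adjugate_fin_two, h1, h2, h3, h4]

theorem rel_unique {a a' a'' : K} (h : rel a a') (k : rel a a'') : a' = a'' := by
  obtain ⟨h1, h2, h3, h4⟩ := h
  obtain ⟨k1, k2, k3, k4⟩ := k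
  ext i j
  fin_cases i <;> fin_cases j
  · exact h2.trans k2.symm
  · have : 2 * a'.1 0 1 = 2 * a''.1 0 1 := h1.symm.trans k1
    exact mul_left_cancel₀ two_ne_zero this
  · exact h3.trans k3.symm
  · exact h4.trans k4.symm

/-- the pairs -/
def Rl : Subgroup (K × K) where
  carrier := {x | rel x.1 x.2}
  mul_mem' := fun hx hy => rel_mul hx hy
  one_mem' := rel_one
  inv_mem' := fun hx => rel_inv hx

/-- the first component -/
def f1 : Rl →* K := (MonoidHom.fst K K).comp Rl.subtype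

theorem f1_inj : Function.Injective f1 := by
  rintro ⟨⟨a, a'⟩, ha⟩ ⟨⟨b, b'⟩, hb⟩ h
  have h1 : a = b := h
  subst h1
  have h2 : a' = b' := rel_unique ha hb
  subst h2
  rfl

theorem ker_le : (SpecialLinearGroup.map (n := Fin 2) (Int.castRingHom (ZMod 2))).ker ≤ f1.range := by
  intro g hg
  rw [MonoidHom.mem_ker] at hg
  have h1 : ((g.1 0 1 : ℤ) : ZMod 2) = 0 := by
    have h2 := congrArg (fun A : SpecialLinearGroup (Fin 2) (ZMod 2) => A.1 0 1) hg
    simpa using h2
  have h2 : (2 : ℤ) ∣ g.1 0 1 := (ZMod.intCast_zmod_eq_zero_iff_dvd _ 2).1 h1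
  obtain ⟨b, hb⟩ := h2
  have hdet : g.1 0 0 * g.1 1 1 - g.1 0 1 * g.1 1 0 = 1 := by
    have := g.2
    rwa [Matrix.det_fin_two] at this
  let g' : K := ⟨!![g.1 0 0, b; 2 * g.1 1 0, g.1 1 1], by
    rw [Matrix.det_fin_two_of]
    rw [hb] at hdet
    linarith⟩
  have hr : rel g g' := ⟨hb, rfl, rfl, rfl⟩
  exact ⟨⟨(g, g'), hr⟩, rfl⟩

theorem fgK : Group.FG K := by
  rw [Group.fg_iff]
  exact ⟨_, SpecialLinearGroup.SL2Z_generators, (Set.finite_singleton _).insert _⟩

theorem fgRl : Rl.FG := by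
  rw [← Group.fg_iff_subgroup_fg]
  have : Group.FG K := fgK
  have hfi : f1.range.FiniteIndex := Subgroup.finiteIndex_of_le ker_le
  have h2 : Group.FG f1.range := Subgroup.fg_of_index_ne_zero f1.range
  exact Group.fg_of_surjective (f := (MonoidHom.ofInjective f1_inj).symm.toMonoidHom)
    (MonoidHom.ofInjective f1_inj).symm.surjective

theorem t_KT : S_KT := by
  obtain ⟨F, hF⟩ := fgRl
  refine ⟨F, fun x hx => ?_, fun Γ _ i t h g g' hg => ?_⟩
  · have h1 : x ∈ Subgroup.closure (F : Set (K × K)) := Subgroup.subset_closure hx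
    rw [hF] at h1
    exact h1
  · have h1 : ((g, g') : K × K) ∈ Subgroup.closure (F : Set (K × K)) := by
      rw [hF]
      exact hg
    have h2 : ∀ x ∈ Subgroup.closure (F : Set (K × K)), i x.1 * t = t * i x.2 := by
      intro x hx
      induction hx using Subgroup.closure_induction with
      | mem x hx => exact h x hx
      | one => simp
      | mul x y _ _ hx hy =>
        rw [Prod.fst_mul, Prod.snd_mul, map_mul, map_mul, mul_assoc, hy, ← mul_assoc, hx, mul_assoc]
      | inv x _ hx =>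
        rw [Prod.fst_inv, Prod.snd_inv, map_inv, map_inv, inv_mul_eq_iff_eq_mul, ← mul_assoc, hx, mul_assoc,
          mul_inv_cancel, mul_one]
    exact h2 _ h1

end Run7.h586.DX
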