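import Pool.Agent.Run7.h276.DX.Iface

/-! The metaplectic group over `GL₂⁺(ℚ)` (piece LIFT). -/

namespace Run7.h276.DX

open Matrix UpperHalfPlane

/-- real matrices from rational ones -/
noncomputable def re : GL (Fin 2) ℚ →* GL (Fin 2) ℝ :=
  Matrix.GeneralLinearGroup.map (algebraMap ℚ ℝ)

/-- the metaplectic group: pairs `(g, f)`, `f` a continuous square root of `c z + d` -/
@[ext] structure Mp where
  g : GL (Fin 2) ℚ
  f : ℍ → ℂ
  pos : 0 < (re g).det.val
  cont : Continuous f
  sq : ∀ z : ℍ, f z ^ 2 = denom (re g) z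

namespace Mp

lemma f_ne (a : Mp) (z : ℍ) : a.f z ≠ 0 := by
  intro h
  have h1 := a.sq z
  rw [h] at h1
  exact denom_ne_zero (re a.g) z (by simpa using h1.symm)

lemma denom_mul {g h : GL (Fin 2) ℝ} (hh : 0 < h.det.val) (z : ℍ) :
    denom (g * h) z = denom g ↑(h • z) * denom h z := by
  rw [denom_cocycle_σ, σ, if_pos hh]
  rfl

noncomputable instance : Mul Mp where
  mul a b :=
    { g := a.g * b.g
      f := fun z => a.f (re b.g • z) * b.f z
      pos := by
        rw [map_mul, map_mul, Units.val_mul]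
        exact mul_pos a.pos b.pos
      cont := (a.cont.comp (continuous_const_smul (re b.g))).mul b.cont
      sq := by
        intro z
        rw [map_mul, denom_mul b.pos, mul_pow, a.sq, b.sq] }

noncomputable instance : One Mp where
  one :=
    { g := 1
      f := fun _ => 1
      pos := by simp
      cont := continuous_const
      sq := by
        intro z
        simp }

noncomputable instance : Inv Mp where
  inv a :=
    { g := a.g⁻¹
      f := fun z => (a.f (re a.g⁻¹ • z))⁻¹
      pos := by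
        rw [map_inv, map_inv, Units.val_inv_eq_inv_val]
        exact inv_pos.2 a.pos
      cont := (a.cont.comp (continuous_const_smul (re a.g⁻¹))).inv₀ (fun z => a.f_ne _)
      sq := by
        intro z
        have h1 := denom_mul (g := re a.g) (h := re a.g⁻¹)
          (by rw [map_inv, map_inv, Units.val_inv_eq_inv_val]; exact inv_pos.2 a.pos) z
        rw [← map_mul, mul_inv_cancel, map_one, denom_one] at h1
        rw [inv_pow, a.sq]
        have h2 := denom_ne_zero (re a.g) (re a.g⁻¹ • z)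
        field_simp
        rw [h1] }

@[simp] lemma mul_g (a b : Mp) : (a * b).g = a.g * b.g := rfl
@[simp] lemma mul_f (a b : Mp) (z : ℍ) : (a * b).f z = a.f (re b.g • z) * b.f z := rfl
@[simp] lemma one_g : (1 : Mp).g = 1 := rfl
@[simp] lemma one_f (z : ℍ) : (1 : Mp).f z = 1 := rfl
@[simp] lemma inv_g (a : Mp) : (a⁻¹).g = a.g⁻¹ := rfl
@[simp] lemma inv_f (a : Mp) (z : ℍ) : (a⁻¹).f z = (a.f (re a.g⁻¹ • z))⁻¹ := rfl

noncomputable instance : Group Mp :=
  Group.ofLeftAxioms
    (by
      intro a b c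
      ext z
      · simp [mul_assoc]
      · simp only [mul_f, mul_g, map_mul, mul_smul, mul_assoc])
    (by
      intro a
      ext z
      · simp
      · simp)
    (by
      intro a
      ext z
      · simp
      · simp only [mul_f, inv_f, one_f]
        rw [smul_smul, ← map_mul, inv_mul_cancel, map_one, one_smul]
        exact inv_mul_cancel₀ (a.f_ne z))

/-- the projection -/
noncomputable def proj : Mp →* GL (Fin 2) ℚ where
  toFun := Mp.g
  map_one' := rfl
  map_mul' := fun _ _ => rfl

lemma denom_re (g : GL (Fin 2) ℚ) (z : ℂ) :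
    denom (re g) z = ((g.1 1 0 : ℚ) : ℂ) * z + ((g.1 1 1 : ℚ) : ℂ) := by
  simp [denom, re]

lemma det_re (g : GL (Fin 2) ℚ) : (re g).det.val = ((g.1.det : ℚ) : ℝ) := by
  change ((g.1).map (algebraMap ℚ ℝ)).det = _
  rw [← RingHom.mapMatrix_apply, ← RingHom.map_det]
  rfl

lemma incl_val (k : K) : (incl k).1 = k.1.map (fun n : ℤ => (n : ℚ)) := by
  ext i j
  rfl

lemma det_incl (k : K) : (incl k).1.det = 1 := by
  change ((SpecialLinearGroup.map (Int.castRingHom ℚ)) k).1.det = 1
  exact ((SpecialLinearGroup.map (Int.castRingHom ℚ)) k).2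

/-- the central element `(1, -1)` -/
noncomputable def zz : Mp where
  g := 1
  f := fun _ => -1
  pos := by simp
  cont := continuous_const
  sq := by
    intro z
    simp

/-- the upper unipotent elements -/
noncomputable def X (r : ℚ) : Mp where
  g := xm r
  f := fun _ => 1
  pos := by
    rw [det_re]
    simp [xm, Matrix.det_fin_two]
  cont := continuous_const
  sq := by
    intro z
    rw [denom_re]
    simp [xm]

/-- the lift of `diag(2,1)` -/
noncomputable def TT : Mp where
  g := T
  f := fun _ => 1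
  pos := by
    rw [det_re]
    simp [T, Matrix.det_fin_two]
  cont := continuous_const
  sq := by
    intro z
    rw [denom_re]
    simp [T]

/-- principal square root -/
noncomputable def sr (z : ℂ) : ℂ := z ^ (2⁻¹ : ℂ)

lemma sr_sq (z : ℂ) : sr z ^ 2 = z := by
  simp [sr]

lemma sr_pos {z : ℂ} (hz : 0 < z.im) : 0 < (sr z).re ∧ 0 < (sr z).im := by
  have h1 : 0 ≤ (sr z).re := by
    rw [sr, Complex.cpow_inv_two_re]
    exact Real.sqrt_nonneg _
  have h2 : (sr z ^ 2).im = z.im := by rw [sr_sq]
  rw [pow_two, Complex.mul_im] at h2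
  have h3 : (sr z).re ≠ 0 := by
    intro h
    rw [h] at h2
    simp at h2
    linarith
  have h4 : 0 < (sr z).re := lt_of_le_of_ne h1 (Ne.symm h3)
  refine ⟨h4, ?_⟩
  have h5 : 0 < (sr z).re * (sr z).im := by nlinarith
  exact (pos_iff_pos_of_mul_pos h5).1 h4

lemma sr_cont : Continuous (fun z : ℍ => sr (z : ℂ)) := by
  rw [continuous_iff_continuousAt]
  intro z
  have h : (z : ℂ) ∈ Complex.slitPlane := Or.inr (by simpa using z.im_pos.ne')
  exact (continuousAt_cpow_const h).comp (continuous_coe.continuousAt)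

/-- the lift of `w` -/
noncomputable def WW : Mp where
  g := incl w
  f := fun z => sr z
  pos := by
    rw [det_re, det_incl]
    simp
  cont := sr_cont
  sq := by
    intro z
    rw [denom_re, sr_sq, incl_val]
    simp [w]

lemma coe_smul' (a : Mp) (z : ℍ) :
    ((re a.g • z : ℍ) : ℂ) = (((a.g.1 0 0 : ℚ) : ℂ) * z + ((a.g.1 0 1 : ℚ) : ℂ)) /
      (((a.g.1 1 0 : ℚ) : ℂ) * z + ((a.g.1 1 1 : ℚ) : ℂ)) := by
  rw [coe_smul_of_det_pos a.pos, denom_re]
  simp [num, re]

/-- the lower unipotent elements -/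
noncomputable def Y (r : ℚ) : Mp := WW * X (-r) * WW⁻¹

lemma Y_g (r : ℚ) : (Y r).g = ym r := by
  have : incl w * xm (-r) = ym r * incl w := by
    apply Units.ext
    rw [Units.val_mul, Units.val_mul, incl_val]
    ext i j
    fin_cases i <;> fin_cases j <;> simp [xm, ym, w, Matrix.mul_apply, Fin.sum_univ_two]
  change incl w * xm (-r) * (incl w)⁻¹ = ym r
  rw [this, mul_inv_cancel_right]

lemma Y_pos {r : ℚ} (hr : 0 < r) (z : ℍ) : 0 < ((Y r).f z).re ∧ 0 < ((Y r).f z).im := by
  obtain ⟨α, β, hα, hβ, hαβ⟩ : ∃ α β : ℂ, (0 < α.re ∧ 0 < α.im) ∧ (0 < β.re ∧ 0 < β.im) ∧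
      (Y r).f z = α * β⁻¹ := by
    refine ⟨sr ↑(re (X (-r)).g • (re (WW⁻¹).g • z)), sr ↑(re (WW⁻¹).g • z), sr_pos ?_, sr_pos ?_, ?_⟩
    · exact UpperHalfPlane.im_pos _
    · exact UpperHalfPlane.im_pos _
    · simp only [Y, mul_f, inv_f]
      simp [X, WW]
  have h1 : 0 < ((Y r).f z).re := by
    rw [hαβ, ← div_eq_mul_inv, Complex.div_re]
    have h2 : 0 < Complex.normSq β := by
      rw [Complex.normSq_pos]
      rintro rfl
      simp at hβ
    have h3 := mul_pos hα.1 hβ.1
    have h4 := mul_pos hα.2 hβ.2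
    positivity
  have h2 := (Y r).sq z
  rw [Y_g, denom_re] at h2
  have h3 : (((Y r).f z) ^ 2).im = r * z.im := by
    rw [h2]
    simp [ym]
  rw [pow_two, Complex.mul_im] at h3
  have h5 : 0 < ((Y r).f z).re * ((Y r).f z).im := by
    have h6 : (0 : ℝ) < r * z.im := mul_pos (by exact_mod_cast hr) z.im_pos
    nlinarith
  exact ⟨h1, (pos_iff_pos_of_mul_pos h5).1 h1⟩

lemma three {a b c : ℂ} (ha : 0 < a.re ∧ 0 < a.im) (hb : 0 < b.re ∧ 0 < b.im)
    (hc : 0 < c.re ∧ 0 < c.im) : a * b * c ≠ 1 := by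
  intro h
  have h1 : 0 < (a * b).im := by
    rw [Complex.mul_im]
    have := mul_pos ha.1 hb.2
    have := mul_pos ha.2 hb.1
    linarith
  have hre : (a * b * c).re = 1 := by rw [h]; rfl
  have him : (a * b * c).im = 0 := by rw [h]; rfl
  rw [Complex.mul_re] at hre
  rw [Complex.mul_im] at him
  -- re * c.re - im * c.im = 1, re * c.im + im * c.re = 0
  have h2 : (a * b).im * (c.re ^ 2 + c.im ^ 2) = - c.im := by
    linear_combination c.re * him - c.im * hre
  have h3 : 0 < (a * b).im * (c.re ^ 2 + c.im ^ 2) := by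
    have := hc.1
    positivity
  linarith [hc.2]

lemma ker_two (b : Mp) (hb : b.g = 1) : b = 1 ∨ b = zz := by
  have h1 : Set.EqOn (b.f ^ 2) ((fun _ => (1 : ℂ)) ^ 2) Set.univ := by
    intro z _
    have h2 := b.sq z
    rw [hb, denom_re] at h2
    simpa using h2
  have h := IsPreconnected.eq_or_eq_neg_of_sq_eq (isPreconnected_univ) b.cont.continuousOn
    (continuousOn_const) h1 (fun {z} _ => one_ne_zero)
  rcases h with h | h
  · left
    ext z
    · rw [hb]; rfl
    · exact h (Set.mem_univ z)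
  · right
    ext z
    · rw [hb]; rfl
    · exact h (Set.mem_univ z)

end Mp

theorem t_LIFT : S_LIFT := by
  refine ⟨Mp, inferInstance, Mp.proj, Mp.zz, Mp.TT, Mp.WW, Mp.X, Mp.Y, ?_, fun b hb => Mp.ker_two b hb,
    rfl, ?_, rfl, rfl, fun r => rfl, Mp.Y_g, ?_, ?_, fun r => rfl, ?_⟩
  · intro h
    have h1 := congrArg (fun a => Mp.f a UpperHalfPlane.I) h
    simp only [Mp.one_f] at h1
    change (-1 : ℂ) = 1 at h1
    norm_num at h1
  · have h1 : G ≤ Mp.proj.range := by
      rw [G, Subgroup.closure_le]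
      rintro x (⟨k, rfl⟩ | rfl)
      · have hk : k ∈ Subgroup.closure {ModularGroup.S, ModularGroup.T} := by
          rw [SpecialLinearGroup.SL2Z_generators]
          exact Subgroup.mem_top k
        have h2 : Subgroup.closure {ModularGroup.S, ModularGroup.T} ≤ (Mp.proj.range).comap incl := by
          rw [Subgroup.closure_le]
          rintro y (rfl | rfl)
          · exact ⟨Mp.WW, rfl⟩
          · refine ⟨Mp.X 1, ?_⟩
            change xm 1 = _
            apply Units.ext
            rw [Mp.incl_val]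
            ext i j
            fin_cases i <;> fin_cases j <;> simp [xm, ModularGroup.T]
        exact h2 hk
      · exact ⟨Mp.TT, rfl⟩
    intro g hg
    exact h1 hg
  · intro r s
    have : xm (r + s) = xm r * xm s := by
      apply Units.ext
      rw [Units.val_mul]
      ext i j
      fin_cases i <;> fin_cases j <;> simp [xm, Matrix.mul_apply, Fin.sum_univ_two, add_comm]
    ext z
    · exact congrArg (fun g : GL (Fin 2) ℚ => g.1 _ _) this
    · simp [Mp.X]
  · intro r
    rw [mul_inv_eq_iff_eq_mul]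
    have : T * xm r = xm (2 * r) * T := by
      apply Units.ext
      rw [Units.val_mul, Units.val_mul]
      ext i j
      fin_cases i <;> fin_cases j <;> simp [xm, T, Matrix.mul_apply, Fin.sum_univ_two]
    ext z
    · exact congrArg (fun g : GL (Fin 2) ℚ => g.1 _ _) this
    · simp [Mp.X, Mp.TT]
  · intro a₁ b₁ a₂ b₂ a₃ b₃ h1 h2 h3 hP
    rcases Mp.ker_two (Mp.X a₁ * Mp.Y b₁ * Mp.X a₂ * Mp.Y b₂ * Mp.X a₃ * Mp.Y b₃) (by
      simp only [Mp.mul_g, Mp.Y_g]
      exact hP) with h | h
    · exfalso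
      have h4 := congrArg (fun a => Mp.f a UpperHalfPlane.I) h
      simp only [Mp.one_f, Mp.mul_f] at h4
      have hX : ∀ (r : ℚ) (z : ℍ), (Mp.X r).f z = 1 := fun _ _ => rfl
      rw [hX, hX, hX, one_mul, mul_one, mul_one] at h4
      exact Mp.three (Mp.Y_pos h1 _) (Mp.Y_pos h2 _) (Mp.Y_pos h3 _) h4
    · exact h

end Run7.h276.DX
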