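import Pool.Agent.Run7.h276.DX.Iface

/- Project DX (helper276); this piece was written by helper464. -/


/-!
Piece RF of project DX: the group `G` is residually finite.
-/

namespace Run7.h464.DX

open Run7.h276.DX Matrix

/-- the ring `ℤ[1/2]` -/
abbrev R2 : Type := Localization.Away (2 : ℤ)

/-- the homomorphism from `ℤ[1/2]` to a ring in which 2 is a unit -/
noncomputable def lft (S : Type) [CommRing S] (h : IsUnit (Int.castRingHom S 2)) : R2 →+* S :=
  IsLocalization.Away.lift (2 : ℤ) h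

theorem lft_int (S : Type) [CommRing S] (h : IsUnit (Int.castRingHom S 2)) (a : ℤ) :
    lft S h (algebraMap ℤ R2 a) = (a : S) :=
  IsLocalization.Away.lift_eq (2 : ℤ) h a

theorem lft_zero (S : Type) [CommRing S] (h : IsUnit (Int.castRingHom S 2)) (r : R2)
    (hr : lft S h r = 0) (a : ℤ) (k : ℕ) (ha : r * algebraMap ℤ R2 (2 ^ k) = algebraMap ℤ R2 a) :
    (a : S) = 0 := by
  rw [← lft_int S h a, ← ha, map_mul, hr, zero_mul]

theorem exists_num (r : R2) : ∃ (a : ℤ) (k : ℕ), r * algebraMap ℤ R2 (2 ^ k) = algebraMap ℤ R2 a := by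
  obtain ⟨k, a, h⟩ := IsLocalization.Away.surj (2 : ℤ) r
  exact ⟨a, k, by rw [map_pow]; exact h⟩

theorem two_unit (S : Type) [Field S] (h : (2 : S) ≠ 0) : IsUnit (Int.castRingHom S 2) := by
  have : Int.castRingHom S 2 = 2 := by simp
  rw [this]
  exact h.isUnit

theorem pow_unit (k : ℕ) : IsUnit (algebraMap ℤ R2 (2 ^ k)) := by
  rw [map_pow]
  exact (IsLocalization.Away.algebraMap_isUnit (2 : ℤ)).pow k

theorem num_zero {r : R2} {a : ℤ} {k : ℕ}
    (ha : r * algebraMap ℤ R2 (2 ^ k) = algebraMap ℤ R2 a) (h : a = 0) : r = 0 := by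
  rw [h, map_zero] at ha
  exact (pow_unit k).mul_left_eq_zero.1 ha

theorem hQ : IsUnit (Int.castRingHom ℚ 2) := two_unit ℚ (by norm_num)

theorem lft_inj : Function.Injective (lft ℚ hQ) := by
  rw [injective_iff_map_eq_zero]
  intro r hr
  obtain ⟨a, k, h⟩ := exists_num r
  have h1 := lft_zero ℚ hQ r hr a k h
  exact num_zero h (by exact_mod_cast h1)

/-- `GL₂(ℤ[1/2]) → GL₂(ℚ)` -/
noncomputable def phi : GL (Fin 2) R2 →* GL (Fin 2) ℚ := Matrix.GeneralLinearGroup.map (lft ℚ hQ)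

theorem phi_inj : Function.Injective phi := by
  intro x y h
  apply Matrix.GeneralLinearGroup.ext
  intro i j
  apply lft_inj
  have h1 := congrArg (fun g : GL (Fin 2) ℚ => g i j) h
  exact h1

theorem G_le : G ≤ phi.range := by
  unfold G
  rw [Subgroup.closure_le]
  rintro x (⟨k, rfl⟩ | hx)
  · refine ⟨Matrix.GeneralLinearGroup.map (algebraMap ℤ R2) (Matrix.SpecialLinearGroup.toGL k), ?_⟩
    apply Matrix.GeneralLinearGroup.ext
    intro i j
    change lft ℚ hQ (algebraMap ℤ R2 (k.1 i j)) = _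
    rw [lft_int]
    rfl
  · rw [Set.mem_singleton_iff] at hx
    subst hx
    have h2 : IsUnit (!![2, 0; 0, 1] : Matrix (Fin 2) (Fin 2) R2).det := by
      rw [Matrix.det_fin_two_of]
      have h3 := pow_unit 1
      have h4 : algebraMap ℤ R2 (2 ^ 1) = 2 * 1 - 0 * 0 := by
        rw [pow_one, map_ofNat]
        ring
      rw [← h4]
      exact h3
    refine ⟨Matrix.GeneralLinearGroup.mk'' _ h2, ?_⟩
    apply Matrix.GeneralLinearGroup.ext
    intro i j
    change lft ℚ hQ ((!![2, 0; 0, 1] : Matrix (Fin 2) (Fin 2) R2) i j) =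
      (!![2, 0; 0, 1] : Matrix (Fin 2) (Fin 2) ℚ) i j
    have h5 : lft ℚ hQ 2 = 2 := by
      have h6 := lft_int ℚ hQ 2
      have h7 : algebraMap ℤ R2 2 = 2 := map_ofNat _ 2
      rw [h7] at h6
      rw [h6]
      norm_num
    fin_cases i <;> fin_cases j
    · exact h5
    · exact map_zero _
    · exact map_zero _
    · exact map_one _

theorem t_RF : S_RF := by
  intro x hx
  set e := MonoidHom.ofInjective phi_inj with he
  set y : GL (Fin 2) R2 := e.symm (Subgroup.inclusion G_le x) with hy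
  have hy1 : y ≠ 1 := by
    intro h
    rw [hy, MulEquiv.map_eq_one_iff] at h
    exact hx ((injective_iff_map_eq_one _).1 (Subgroup.inclusion_injective G_le) x h)
  have h1 : ∃ i j, y i j - (1 : GL (Fin 2) R2) i j ≠ 0 := by
    by_contra h
    push Not at h
    exact hy1 (Matrix.GeneralLinearGroup.ext fun i j => sub_eq_zero.1 (h i j))
  obtain ⟨i, j, hij⟩ := h1
  obtain ⟨a, k, ha⟩ := exists_num (y i j - (1 : GL (Fin 2) R2) i j)
  have ha0 : a ≠ 0 := fun h => hij (num_zero ha h)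
  obtain ⟨p, hp, hpp⟩ := Nat.exists_infinite_primes (a.natAbs + 3)
  have : Fact p.Prime := ⟨hpp⟩
  have hp2 : (2 : ZMod p) ≠ 0 := by
    intro h
    have h1 : ((2 : ℕ) : ZMod p) = 0 := by exact_mod_cast h
    rw [ZMod.natCast_eq_zero_iff] at h1
    have := Nat.le_of_dvd (by norm_num) h1
    omega
  have hu := two_unit (ZMod p) hp2
  set ψ : G →* GL (Fin 2) (ZMod p) :=
    (Matrix.GeneralLinearGroup.map (lft (ZMod p) hu)).comp
      (e.symm.toMonoidHom.comp (Subgroup.inclusion G_le)) with hψ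
  refine ⟨ψ.ker, Subgroup.finiteIndex_ker ψ, fun hmem => ?_⟩
  have h2 : ψ x = 1 := hmem
  have h3 : lft (ZMod p) hu (y i j) = (1 : GL (Fin 2) (ZMod p)) i j :=
    congrArg (fun g : GL (Fin 2) (ZMod p) => g i j) h2
  have h4 : lft (ZMod p) hu ((1 : GL (Fin 2) R2) i j) = (1 : GL (Fin 2) (ZMod p)) i j := by
    have h5 : Matrix.GeneralLinearGroup.map (lft (ZMod p) hu) (1 : GL (Fin 2) R2) = 1 := map_one _
    exact congrArg (fun g : GL (Fin 2) (ZMod p) => g i j) h5
  have h6 := lft_zero (ZMod p) hu _ (by rw [map_sub, h3, h4, sub_self]) a k ha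
  rw [ZMod.intCast_zmod_eq_zero_iff_dvd] at h6
  have h7 := Int.natAbs_dvd_natAbs.2 h6
  rw [Int.natAbs_natCast] at h7
  have h8 := Nat.le_of_dvd (Int.natAbs_pos.2 ha0) h7
  omega

end Run7.h464.DX
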