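import Pool.Agent.Run7.h276.DX.Iface

/- Project DX (helper276); this piece was written by helper141. -/


/-!
Piece SL of project DX (MP_39f9da_an): `SL₂(ℤ)` is finitely presented, from the criterion for finite
presentability `S_FPC` and the amalgam criterion `S_SLA`.
-/

namespace Run7.h141.DX

open Run7.h276.DX
open Matrix

lemma closure_wu : Subgroup.closure (Set.range (![w, u] : Fin 2 → K)) = ⊤ := by
  rw [eq_top_iff, ← SpecialLinearGroup.SL2Z_generators, Subgroup.closure_le]
  have hw : w ∈ Subgroup.closure (Set.range (![w, u] : Fin 2 → K)) :=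
    Subgroup.subset_closure ⟨0, rfl⟩
  have hu : u ∈ Subgroup.closure (Set.range (![w, u] : Fin 2 → K)) :=
    Subgroup.subset_closure ⟨1, rfl⟩
  have hS : ModularGroup.S = w := by
    ext i j
    fin_cases i <;> fin_cases j <;> simp [ModularGroup.S, w]
  have hT : ModularGroup.T = u * w⁻¹ := by
    rw [eq_mul_inv_iff_mul_eq]
    decide +kernel
  intro x hx
  simp only [Set.mem_insert_iff, Set.mem_singleton_iff] at hx
  rcases hx with rfl | rfl
  · rw [hS]; exact hw
  · rw [hT]; exact mul_mem hu (inv_mem hw)

lemma w4 : w ^ 4 = 1 := by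
  decide +kernel

lemma w2u3 : w ^ 2 = u ^ 3 := by
  decide +kernel

theorem t_SL (h1 : S_FPC) (h2 : S_SLA) : S_SL := by
  unfold S_SL
  refine h1 K 2 ![w, u]
    {FreeGroup.of 0 ^ 4, FreeGroup.of 0 ^ 2 * (FreeGroup.of 1 ^ 3)⁻¹}
    ((Set.finite_singleton _).insert _) ?_ closure_wu ?_
  · intro r hr
    simp only [Set.mem_insert_iff, Set.mem_singleton_iff] at hr
    rcases hr with rfl | rfl
    · simp only [map_pow, FreeGroup.lift_apply_of]
      exact w4
    · simp only [map_mul, map_inv, map_pow, FreeGroup.lift_apply_of]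
      rw [mul_inv_eq_one]
      exact w2u3
  · intro P _ δ ρ hc hR hρ
    refine h2 P (δ 0) (δ 1) ρ ?_ ?_ ?_ ?_ ?_
    · rw [← hc]
      congr 1
      ext x
      simp only [Set.mem_insert_iff, Set.mem_singleton_iff, Set.mem_range, Fin.exists_fin_two]
      constructor
      · rintro (h | h)
        · exact Or.inl h.symm
        · exact Or.inr h.symm
      · rintro (h | h)
        · exact Or.inl h.symm
        · exact Or.inr h.symm
    · have := hR (FreeGroup.of 0 ^ 4) (by simp)
      simpa only [map_pow, FreeGroup.lift_apply_of] using this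
    · have := hR (FreeGroup.of 0 ^ 2 * (FreeGroup.of 1 ^ 3)⁻¹) (by simp)
      simp only [map_mul, map_inv, map_pow, FreeGroup.lift_apply_of] at this
      exact mul_inv_eq_one.mp this
    · exact hρ 0
    · exact hρ 1

end Run7.h141.DX
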