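import Pool.Agent.Run7.h276.DX.Iface

/- Project DX (helper276); this piece was written by helper961. -/


/-! Piece SLA (project h276 DX): a group with generators `s, v` and `s⁴ = 1`, `s² = v³` mapping to `w, u`
injects in `SL₂(ℤ)` (ping-pong with nonnegative matrices). -/

namespace Run7.h961.DX

open Run7.h276.DX Matrix

/-- products `(s v^{b₁}) ⋯ (s v^{bₙ})`, `bᵢ ∈ {1,2}` -/
inductive Mon {P : Type} [Group P] (s v : P) : ℕ → P → Prop
  | one : Mon s v 0 1
  | c1 (n : ℕ) (m : P) : Mon s v n m → Mon s v (n + 1) (s * (v * m))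
  | c2 (n : ℕ) (m : P) : Mon s v n m → Mon s v (n + 1) (s * (v * (v * m)))

/-- normal form -/
def NF {P : Type} [Group P] (s v x : P) : Prop :=
  ∃ (c : P) (a n : ℕ) (m : P) (e : ℕ), (c = 1 ∨ c = s * s) ∧ a < 3 ∧ e < 2 ∧ Mon s v n m ∧
    x = c * (v ^ a * (m * s ^ e))

section
variable {P : Type} [Group P] {s v : P} (h4 : s ^ 4 = 1) (h23 : s ^ 2 = v ^ 3)
include h4

theorem zz : (s * s) * (s * s) = 1 := by
  rw [← h4]; simp [pow_succ, mul_assoc]

theorem cz {c : P} (hc : c = 1 ∨ c = s * s) : c * (s * s) = 1 ∨ c * (s * s) = s * s := by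
  rcases hc with rfl | rfl
  · right; simp
  · left; exact zz h4

omit h4 in
theorem cs {c : P} (hc : c = 1 ∨ c = s * s) (y : P) : s * (c * y) = c * (s * y) := by
  rcases hc with rfl | rfl
  · simp
  · simp [mul_assoc]

include h23 in
omit h4 in
theorem cv {c : P} (hc : c = 1 ∨ c = s * s) (y : P) : v * (c * y) = c * (v * y) := by
  rcases hc with rfl | rfl
  · simp
  · have : s * s = v * v * v := by
      have := h23; simpa [pow_succ, mul_assoc] using this
    rw [this]; simp [mul_assoc]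

theorem NF_s {x : P} (hx : NF s v x) : NF s v (s * x) := by
  obtain ⟨c, a, n, m, e, hc, ha, he, hm, rfl⟩ := hx
  rw [cs hc]
  interval_cases a
  · cases hm with
    | one =>
      interval_cases e
      · exact ⟨c, 0, 0, 1, 1, hc, by norm_num, by norm_num, Mon.one, by simp⟩
      · exact ⟨c * (s * s), 0, 0, 1, 0, cz h4 hc, by norm_num, by norm_num, Mon.one, by simp [mul_assoc]⟩
    | c1 n m hm =>
      exact ⟨c * (s * s), 1, n, m, e, cz h4 hc, by norm_num, he, hm, by simp [mul_assoc]⟩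
    | c2 n m hm =>
      exact ⟨c * (s * s), 2, n, m, e, cz h4 hc, by norm_num, he, hm, by simp [mul_assoc, pow_succ]⟩
  · exact ⟨c, 0, n + 1, _, e, hc, by norm_num, he, Mon.c1 n m hm, by simp [mul_assoc]⟩
  · exact ⟨c, 0, n + 1, _, e, hc, by norm_num, he, Mon.c2 n m hm, by simp [mul_assoc, pow_succ]⟩

include h23 in
theorem NF_v {x : P} (hx : NF s v x) : NF s v (v * x) := by
  obtain ⟨c, a, n, m, e, hc, ha, he, hm, rfl⟩ := hx
  rw [cv h23 hc]
  have h3 : ∀ y : P, v * (v * (v * y)) = s * (s * y) := by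
    intro y
    have : s * s = v * v * v := by
      have := h23; simpa [pow_succ, mul_assoc] using this
    rw [← mul_assoc s s y, this]; simp [mul_assoc]
  interval_cases a
  · exact ⟨c, 1, n, m, e, hc, by norm_num, he, hm, by simp⟩
  · exact ⟨c, 2, n, m, e, hc, by norm_num, he, hm, by simp [pow_succ, mul_assoc]⟩
  · exact ⟨c * (s * s), 0, n, m, e, cz h4 hc, by norm_num, he, hm, by simp [pow_succ, mul_assoc, h3]⟩

include h23 in
theorem NF_all (hcl : Subgroup.closure {s, v} = ⊤) (x : P) : NF s v x := by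
  have hx : x ∈ Subgroup.closure {s, v} := by rw [hcl]; trivial
  have hsi : s⁻¹ = s * (s * s) := by
    rw [inv_eq_iff_mul_eq_one, ← h4]; simp [pow_succ, mul_assoc]
  have hvi : v⁻¹ = v * (v * (v * (v * v))) := by
    rw [inv_eq_iff_mul_eq_one, ← zz h4]
    have : s * s = v * v * v := by
      have := h23; simpa [pow_succ, mul_assoc] using this
    rw [this]; simp [mul_assoc]
  induction hx using Subgroup.closure_induction_left with
  | one => exact ⟨1, 0, 0, 1, 0, Or.inl rfl, by norm_num, by norm_num, Mon.one, by simp⟩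
  | mul_left x hx y hy ih =>
    rcases hx with rfl | rfl
    · exact NF_s h4 ih
    · exact NF_v h4 h23 ih
  | inv_mul_cancel x hx y hy ih =>
    rcases hx with rfl | rfl
    · rw [hsi, mul_assoc, mul_assoc]; exact NF_s h4 (NF_s h4 (NF_s h4 ih))
    · rw [hvi]; simp only [mul_assoc]
      exact NF_v h4 h23 (NF_v h4 h23 (NF_v h4 h23 (NF_v h4 h23 (NF_v h4 h23 ih))))

end

theorem cm (a b : K) : (a * b).1 = a.1 * b.1 := rfl

theorem mat {P : Type} [Group P] {s v : P} (ρ : P →* K) (hs : ρ s = w) (hv : ρ v = u) {n : ℕ} {m : P}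
    (hm : Mon s v n m) : ∃ σ p q r t : ℤ, (σ = 1 ∨ σ = -1) ∧ 1 ≤ p ∧ 1 ≤ t ∧ 0 ≤ q ∧ 0 ≤ r ∧
      (n : ℤ) + 2 ≤ p + q + r + t ∧ (ρ m).1 = !![σ * p, -(σ * q); -(σ * r), σ * t] := by
  induction hm with
  | one =>
    refine ⟨1, 1, 0, 0, 1, Or.inl rfl, by norm_num, by norm_num, by norm_num, by norm_num, by norm_num, ?_⟩
    rw [map_one]
    ext i j; fin_cases i <;> fin_cases j <;> simp
  | c1 n m hm ih =>
    obtain ⟨σ, p, q, r, t, h1, h2, h3, h4, h5, h6, h7⟩ := ih
    refine ⟨-σ, p, q, p + r, q + t, ?_, h2, by omega, h4, by omega, by push_cast; omega, ?_⟩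
    · rcases h1 with rfl | rfl <;> simp
    · rw [map_mul, map_mul, hs, hv, cm, cm]
      show !![0, -1; 1, 0] * (!![1, -1; 1, 0] * (ρ m).1) = _
      rw [h7, Matrix.mul_fin_two, Matrix.mul_fin_two]
      ext i j; fin_cases i <;> fin_cases j <;> simp <;> ring
  | c2 n m hm ih =>
    obtain ⟨σ, p, q, r, t, h1, h2, h3, h4, h5, h6, h7⟩ := ih
    refine ⟨-σ, p + r, q + t, r, t, ?_, by omega, h3, by omega, h5, by push_cast; omega, ?_⟩
    · rcases h1 with rfl | rfl <;> simp
    · rw [map_mul, map_mul, map_mul, hs, hv, cm, cm, cm]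
      show !![0, -1; 1, 0] * (!![1, -1; 1, 0] * (!![1, -1; 1, 0] * (ρ m).1)) = _
      rw [h7, Matrix.mul_fin_two, Matrix.mul_fin_two, Matrix.mul_fin_two]
      ext i j; fin_cases i <;> fin_cases j <;> simp <;> ring

theorem t_SLA : S_SLA := by
  intro P _ s v ρ hcl h4 h23 hs hv
  rw [injective_iff_map_eq_one]
  intro x hx
  obtain ⟨c, a, n, m, e, hc, ha, he, hm, rfl⟩ := NF_all h4 h23 hcl x
  obtain ⟨σ, p, q, r, t, h1, h2, h3, h5, h6, h7, h8⟩ := mat ρ hs hv hm
  have hσ : σ ≠ 0 := by rcases h1 with rfl | rfl <;> norm_num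
  -- the matrix of `c`
  have hcm : ∃ τ : ℤ, (τ = 1 ∨ τ = -1) ∧ (ρ c).1 = !![τ, 0; 0, τ] ∧ (τ = 1 → c = 1) := by
    rcases hc with rfl | rfl
    · refine ⟨1, Or.inl rfl, ?_, fun _ => rfl⟩
      rw [map_one]; ext i j; fin_cases i <;> fin_cases j <;> simp
    · refine ⟨-1, Or.inr rfl, ?_, fun h => by norm_num at h⟩
      rw [map_mul, hs, cm]
      show !![0, -1; 1, 0] * !![0, -1; 1, 0] = _
      rw [Matrix.mul_fin_two]
      ext i j; fin_cases i <;> fin_cases j <;> simp
  obtain ⟨τ, hτ, hcm, hτ1⟩ := hcm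
  have hτ0 : τ ≠ 0 := by rcases hτ with rfl | rfl <;> norm_num
  have hM : ρ c * (u ^ a * (ρ m * w ^ e)) = 1 := by
    rw [← hx, map_mul, map_mul, map_mul, map_pow, map_pow, hs, hv]
  have hu : u.1 = !![1, -1; 1, 0] := rfl
  have hw : w.1 = !![0, -1; 1, 0] := rfl
  have h1m : (1 : K).1 = !![1, 0; 0, 1] := by
    ext i j; fin_cases i <;> fin_cases j <;> rfl
  have key : ∀ M : Matrix (Fin 2) (Fin 2) ℤ, ∀ x y z t : ℤ, M = !![x, y; z, t] →
      (ρ c).1 * M = !![1, 0; 0, 1] → y = 0 ∧ z = 0 ∧ τ * x = 1 ∧ τ * t = 1 := by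
    intro M x y z t hM h
    rw [hM, hcm, Matrix.mul_fin_two] at h
    have e00 := congrFun (congrFun h 0) 0
    have e01 := congrFun (congrFun h 0) 1
    have e10 := congrFun (congrFun h 1) 0
    have e11 := congrFun (congrFun h 1) 1
    simp at e00 e01 e10 e11
    exact ⟨by tauto, by tauto, e00, e11⟩
  have hpos : ∀ y : ℤ, σ * y = 0 → y = 0 := fun y hy => by
    rcases mul_eq_zero.1 hy with h | h
    · exact absurd h hσ
    · exact h
  interval_cases a <;> interval_cases e <;>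
    simp only [pow_zero, pow_one, pow_two, one_mul, mul_one] at hM <;>
    have hM' := congrArg Subtype.val hM <;> rw [h1m] at hM' <;> simp only [cm, hu, hw, h8, Matrix.mul_fin_two] at hM'
  · obtain ⟨ha, hb, hc1, hd⟩ := key _ _ _ _ _ rfl hM'
    have hq := hpos q (by linarith)
    have hr := hpos r (by linarith)
    have hn : n = 0 := by
      have : p ≤ 1 := by
        rcases h1 with rfl | rfl <;> rcases hτ with rfl | rfl <;> linarith
      have : t ≤ 1 := by
        rcases h1 with rfl | rfl <;> rcases hτ with rfl | rfl <;> linarith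
      omega
    subst hn
    have hm1 : m = 1 := by cases hm; rfl
    subst hm1
    have hσ1 : (ρ (1 : P)).1 = !![1, 0; 0, 1] := by rw [map_one, h1m]
    rw [hσ1] at h8
    have e00 := congrFun (congrFun h8 0) 0
    simp at e00
    have : τ = 1 := by rw [← e00] at hc1; linarith
    simp [hτ1 this]
  · obtain ⟨ha, hb, hc1, hd⟩ := key _ _ _ _ _ rfl hM'
    exact absurd (hpos p (by linarith)) (by omega)
  · obtain ⟨ha, hb, hc1, hd⟩ := key _ _ _ _ _ rfl hM'
    exact absurd (hpos p (by linarith)) (by omega)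
  · obtain ⟨ha, hb, hc1, hd⟩ := key _ _ _ _ _ rfl hM'
    exact absurd (hpos (p + r) (by linarith)) (by omega)
  · obtain ⟨ha, hb, hc1, hd⟩ := key _ _ _ _ _ rfl hM'
    exact absurd (hpos t (by linarith)) (by omega)
  · obtain ⟨ha, hb, hc1, hd⟩ := key _ _ _ _ _ rfl hM'
    exact absurd (hpos (q + t) (by linarith)) (by omega)

end Run7.h961.DX
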