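import Pool.Agent.Run7.h276.FinExt.Main
import Pool.Agent.Run7.h276.DX.Lift
import Pool.Agent.Run7.h276.DX.SLA
import Pool.Agent.Run7.h276.DX.SL
import Pool.Agent.Run7.h276.DX.STEP
import Pool.Agent.Run7.h276.DX.INJ
import Pool.Agent.Run7.h276.DX.KT
import Pool.Agent.Run7.h276.DX.FP
import Pool.Agent.Run7.h276.DX.NT
import Pool.Agent.Run7.h276.DX.RF
import Pool.Agent.Run7.h276.DX.GRP
import Pool.Agent.Run7.h276.DX.FPC

/-! The group `G` is finitely presented, residually finite, and has a double cover that is not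
residually finite. -/

namespace Run7.h276.DX

theorem G_fp : Group.IsFinitelyPresented G :=
  Run7.h40.DX.t_FP (Run7.h141.DX.t_SL Run7.h510.DX.t_FPC Run7.h961.DX.t_SLA)
    (Run7.h40.DX.t_INJ Run7.h727.DX.t_STEP Run7.h727.DX.t_CASE) Run7.h586.DX.t_KT

theorem G_rf : ∀ x : G, x ≠ 1 → ∃ H : Subgroup G, H.FiniteIndex ∧ x ∉ H := Run7.h464.DX.t_RF

theorem G_cover : ∃ (E : Type) (_ : Group E) (π : E →* G), Function.Surjective π ∧ Finite π.ker ∧
    ∃ z : E, z ≠ 1 ∧ ∀ H : Subgroup E, H.FiniteIndex → z ∈ H :=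
  Run7.h989.DX.t_GRP t_LIFT Run7.h464.DX.t_NT

end Run7.h276.DX
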