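import Mathlib

/-!
Interface for MP_39f9da_an (frozen statement S04380): the arithmetic group
`G = ⟨SL₂(ℤ), diag(2,1)⟩ ⊂ GL₂(ℚ)` (this is `GL₂⁺(ℤ[1/2])`) is finitely presented and residually
finite, its metaplectic double cover is not residually finite.  (The rest of the argument, a strongly
irreducible SFT over `G` without periodic points from such a cover, is compiled: Run7/h276/FinExt.)
-/

namespace Run7.h276.DX

open Matrix

/-- `SL₂(ℤ)` -/
abbrev K : Type := Matrix.SpecialLinearGroup (Fin 2) ℤ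

/-- the inclusion `SL₂(ℤ) → GL₂(ℚ)` -/
noncomputable def incl : K →* GL (Fin 2) ℚ :=
  (Matrix.SpecialLinearGroup.toGL).comp (Matrix.SpecialLinearGroup.map (Int.castRingHom ℚ))

/-- the matrix `diag(2,1)` in `GL₂(ℚ)` -/
noncomputable def T : GL (Fin 2) ℚ :=
  Matrix.GeneralLinearGroup.mkOfDetNeZero !![2, 0; 0, 1] (by simp)

/-- the group `G` generated by `SL₂(ℤ)` and `diag(2,1)` -/
noncomputable def G : Subgroup (GL (Fin 2) ℚ) := Subgroup.closure (Set.range incl ∪ {T})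

/-- the element `(0 -1; 1 0)` of `SL₂(ℤ)` -/
def w : K := ⟨!![0, -1; 1, 0], by simp⟩

/-- the element `(1 -1; 1 0)` of `SL₂(ℤ)`, of order 6; `w² = u³ = -1` -/
def u : K := ⟨!![1, -1; 1, 0], by simp⟩

/-- the matrix `diag(2,1)` over `ℤ` -/
def D : Matrix (Fin 2) (Fin 2) ℤ := !![2, 0; 0, 1]

/-- the matrix `diag(1,2)` over `ℤ` -/
def D' : Matrix (Fin 2) (Fin 2) ℤ := !![1, 0; 0, 2]

/-- `g = (a 2b; c d)`, `g' = (a b; 2c d)`; equivalently `g * diag(2,1) = diag(2,1) * g'` -/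
def rel (g g' : K) : Prop :=
  g.1 0 1 = 2 * g'.1 0 1 ∧ g'.1 0 0 = g.1 0 0 ∧ g'.1 1 0 = 2 * g.1 1 0 ∧ g'.1 1 1 = g.1 1 1

/-- PIECE FPC (30-50 lines): criterion for finite presentability.
Proof: let `φ = FreeGroup.lift γ : FreeGroup (Fin n) → H` (surjective), `N = Subgroup.normalClosure R ≤ φ.ker`,
`P = FreeGroup (Fin n) ⧸ N`, `δ i = mk (of i)`, `ρ = QuotientGroup.lift N φ _`; the hypothesis says that `ρ` is
injective, so `φ.ker = N`, which is the definition of `Group.IsFinitelyPresented`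
(Mathlib.GroupTheory.FinitelyPresentedGroup). -/
def S_FPC : Prop :=
  ∀ (H : Type) [Group H] (n : ℕ) (γ : Fin n → H) (R : Set (FreeGroup (Fin n))), R.Finite →
    (∀ r ∈ R, FreeGroup.lift γ r = 1) → Subgroup.closure (Set.range γ) = ⊤ →
    (∀ (P : Type) [Group P] (δ : Fin n → P) (ρ : P →* H), Subgroup.closure (Set.range δ) = ⊤ →
      (∀ r ∈ R, FreeGroup.lift δ r = 1) → (∀ i, ρ (δ i) = γ i) → Function.Injective ρ) →
    Group.IsFinitelyPresented H

/-- PIECE SLA (80-130 lines): a group with generators `s, v` and `s⁴ = 1`, `s² = v³` mapping to `w, u`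
injects in `SL₂(ℤ)`.
Proof: `z := s²` is central, `z² = 1`.  Let `M` be the set of products `(s v^{b₁})(s v^{b₂})…(s v^{bₙ})`,
`bᵢ ∈ {1,2}`, `n ≥ 0`, (an inductive predicate `Mon n m`).  (1) Every element of `P` is `z^ε v^a m s^e` with
`ε, e ∈ {0,1}`, `a ∈ {0,1,2}`, `Mon n m` (closure induction: this set contains 1 and is stable under left
multiplication by `s`, `v`; inverses are powers: `s⁻¹ = s³`, `v⁻¹ = v⁵`).  (2) `w u = -(1 0; -1 1)`,
`w u² = -(1 -1; 0 1)`, so by induction `ρ m = ±(p -q; -r t)` with integers `p, t ≥ 1`, `q, r ≥ 0`,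
`p+q+r+t ≥ n+2`.  (3) If `ρ (z^ε v^a m s^e) = 1` then `ρ m = ± u^{-a} w^{-e}`; the six matrices
`1`, `u⁻¹=(0 1;-1 1)`, `u⁻²=(-1 1;-1 0)`, `w⁻¹=(0 1;-1 0)`, `u⁻¹w⁻¹=(-1 0;-1 -1)`, `u⁻²w⁻¹=(-1 -1;0 -1)`
are not of the form `±(p -q; -r t)` except `1`; so `a = e = 0`, `p+q+r+t = 2`, `n = 0`, `m = 1`,
and `z^ε ↦ (-1)^ε = 1` gives `ε = 0`. -/
def S_SLA : Prop :=
  ∀ (P : Type) [Group P] (s v : P) (ρ : P →* K), Subgroup.closure {s, v} = ⊤ →
    s ^ 4 = 1 → s ^ 2 = v ^ 3 → ρ s = w → ρ v = u → Function.Injective ρ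

/-- PIECE SL (30 lines, from S_FPC and S_SLA): `SL₂(ℤ)` is finitely presented.
Generators `w, u` (closure = ⊤ from Mathlib's `SpecialLinearGroup.SL2Z_generators`, whose `S` is `w`
and whose `T = (1 1; 0 1)` satisfies `u = T * S`... check the sign). -/
def S_SL : Prop := Group.IsFinitelyPresented K

/-- PIECE STEP (30-50 lines): an integer matrix of determinant `2^(l+1)` is `k * diag(2,1) * M'`.
Proof: modulo 2 one of row 1, row 2, row 1 + row 2 of `M` is zero (even determinant; `decide` over `ZMod 2`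
or case split on parities).  Take `k = 1`, resp. `k = w` (`w⁻¹M` has first row = row 2, second row = -row 1),
resp. `k = (1 -1; 0 1)` (`k⁻¹ M` has first row row 1 + row 2). -/
def S_STEP : Prop :=
  ∀ (l : ℕ) (M : Matrix (Fin 2) (Fin 2) ℤ), M.det = 2 ^ (l + 1) →
    ∃ (k : K) (M' : Matrix (Fin 2) (Fin 2) ℤ), M = k.1 * D * M' ∧ M'.det = 2 ^ l

/-- PIECE CASE (40-60 lines): two decompositions of the same matrix.
Proof: `γ := k⁻¹k' = (p q; r s)`; `γ D A' = D A`.  If `q = 2q'` is even, `γ' := (p q'; 2r s)`, `γ D = D γ'`,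
so `A = γ' A'` (cancel `D`).  If `q` is odd: rows `A = (α; β)`, `A' = (α'; β')`:
`2pα' + qβ' = 2α` so `β'` is even, `β = 2rα' + sβ'` is even, and `B = (α; β/2)`, `B' = (α'; β'/2)`:
`D A = 2 B`, `D A' = 2 B'` so `k B = k' B'`. -/
def S_CASE : Prop :=
  ∀ (k k' : K) (A A' : Matrix (Fin 2) (Fin 2) ℤ), k.1 * D * A = k'.1 * D * A' →
    (∃ γ γ' : K, k' = k * γ ∧ rel γ γ' ∧ A = γ'.1 * A') ∨
    (∃ B B' : Matrix (Fin 2) (Fin 2) ℤ, A = D' * B ∧ A' = D' * B' ∧ k.1 * B = k'.1 * B')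

/-- PIECE INJ (100-150 lines, from S_STEP and S_CASE): a group generated by `i(K)` and `t` with the relations
`i g * t = t * i g'` (`rel g g'`) and `c := t i(w) t i(w)⁻¹` central maps injectively.
Proof: inductive `Pos : ℕ → Γ → Matrix → Prop`: `Pos 0 (i k) k.1`; `Pos l m M → Pos (l+1) (i k * t * m) (k.1 * D * M)`.
(1) left multiplication by `K` preserves `Pos l`; `Pos l m M → ρ m` is the matrix `M` and `det M = 2^l`.
(2) by S_STEP for every integer `M` of determinant `2^l` there is `m` with `Pos l m M`.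
(3) `Pos l m M`, `Pos l m' M` imply `m = m'`, strong induction on `l`: `m = i k * t * a`, `m' = i k' * t * a'`,
`k D A = k' D A'`; S_CASE: first case: `m' = i k * i γ * t * a' = i k * t * (i γ' * a')` and induction gives
`a = i γ' * a'`.  Second case: (`det A = 2^l` even determinant so `l ≥ 1`, `det B = 2^(l-1)`), take `b` with
`Pos (l-1) b B` by (2); `D' = w D w⁻¹`, so `Pos l (i w * t * ((i w)⁻¹ * b)) (D' B = A)` and induction gives
`a = i w * t * (i w)⁻¹ * b`, `m = i k * c * b = c * (i k * b)`, the same for `m' = c * (i k' * b')`, and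
`k B = k' B'` with the induction hypothesis at `l-1` gives `i k * b = i k' * b'`.
(4) every `γ : Γ` has `n` with `Pos l (c^n * γ) M` for some `l, M` (closure induction by left multiplication:
`i k`, `t` clear, `t⁻¹ = i w * t * (i w)⁻¹ * c⁻¹`; `(i k)⁻¹ = i k⁻¹`).
(5) if `ρ γ = 1`: `c^n γ` has `Pos l _ M` with `M = 2^n` (as `ρ c = 2`), `l = 2n` by determinants, and
`Pos (2n) (c^n) (2^n)` (induction: `c * m = i 1 * t * (i w * t * ((i w)⁻¹ * m))`), so `c^n γ = c^n` by (3). -/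
def S_INJ : Prop :=
  ∀ (Γ : Type) [Group Γ] (i : K →* Γ) (t : Γ) (ρ : Γ →* GL (Fin 2) ℚ),
    (∀ g, ρ (i g) = incl g) → ρ t = T →
    Subgroup.closure (Set.range i ∪ {t}) = ⊤ →
    (∀ g g' : K, rel g g' → i g * t = t * i g') →
    (∀ g : K, (t * i w * t * (i w)⁻¹) * i g = i g * (t * i w * t * (i w)⁻¹)) →
    ((t * i w * t * (i w)⁻¹) * t = t * (t * i w * t * (i w)⁻¹)) →
    Function.Injective ρ

/-- PIECE KT (50-80 lines): finitely many of the relations `i g * t = t * i g'` imply all of them.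
Proof: `K_t = {g : K | 2 ∣ g 0 1}` is a subgroup of finite index (it contains the kernel of
`SL₂(ℤ) → SL₂(ℤ/2)`, finite target), `K` is finitely generated (`SL2Z_generators`), so `K_t` is finitely
generated (`Subgroup.fg_of_index_ne_zero`), and `θ : K_t →* K`, `(a 2b; c d) ↦ (a b; 2c d)` is a homomorphism;
`F` = the pairs `(g, θ g)`, `g` in a finite generating set.  For `Γ, i, t` the two homomorphisms
`g ↦ i g` and `g ↦ t * i (θ g) * t⁻¹` on `K_t` agree on the generators, so everywhere. -/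
def S_KT : Prop :=
  ∃ F : Finset (K × K), (∀ x ∈ F, rel x.1 x.2) ∧
    ∀ (Γ : Type) [Group Γ] (i : K →* Γ) (t : Γ), (∀ x ∈ F, i x.1 * t = t * i x.2) →
      ∀ g g' : K, rel g g' → i g * t = t * i g'

/-- PIECE FP (80-120 lines, from S_SL, S_INJ, S_KT): the group `G` is finitely presented.
Proof: `P := Monoid.Coprod K (Multiplicative ℤ)` is finitely presented (instance); `R` the finite set of the
elements `inl g * t * (inl g')⁻¹ * t⁻¹` (`(g, g') ∈ F` of S_KT), the commutators of `c = t inl(w) t inl(w)⁻¹`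
with `t` and with `inl k`, `k` in a finite generating set of `K`; `N = normalClosure R`, `Γ = P ⧸ N` is finitely
presented (`Group.IsFinitelyPresented.quotient`), `ρ : Γ → GL₂(ℚ)` (the relations hold in `GL₂(ℚ)`), injective by S_INJ,
its range is `G`, so `Γ ≃* G` (`Group.IsFinitelyPresented.equiv`). -/
def S_FP : Prop := Group.IsFinitelyPresented G

/-- PIECE NT (40-60 lines): number theory.
Proof: Dirichlet (`Nat.forall_exists_prime_gt_and_eq_mod` with modulus `8 N²`, residue ≡ -1 mod `N²` and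
≡ 3 mod 8 by the Chinese remainder theorem): a prime `r ≡ -1 mod N²`, `r ≡ 3 mod 8`; 2 is not a square mod `r`
(`ZMod.exists_sq_eq_two_iff`), so `2^(r/2) = -1` mod `r` (Euler's criterion `ZMod.euler_criterion`,
`ZMod.pow_div_two_eq_neg_one_or_one`); `g = r/2`, `c = (2^g+1)/r`, `s = (r+1)/N²`. -/
def S_NT : Prop :=
  ∀ N : ℕ, Odd N → ∃ r c g s : ℕ, 0 < r ∧ r * c = 2 ^ g + 1 ∧ r + 1 = N ^ 2 * s

/-- PIECE RF (60-90 lines): the group `G` is residually finite.
Proof: for `x ∈ G` all entries of `x` and `x⁻¹` have a power of 2 as denominator (closure induction).  For an odd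
prime `p` the entrywise cast `ℚ → ZMod p` (`Rat.cast`, additive and multiplicative on rationals whose
denominator is nonzero in `ZMod p`: `Rat.cast_add_of_ne_zero`, `Rat.cast_mul_of_ne_zero`) gives a homomorphism
`G →* GL (Fin 2) (ZMod p)`; if `x ≠ 1` some entry of `x - 1` is `a/2^k ≠ 0`, take `p > |a|`, `p > 2`; `H` = kernel. -/
def S_RF : Prop := ∀ x : G, x ≠ 1 → ∃ H : Subgroup G, H.FiniteIndex ∧ x ∉ H

/-- the upper unipotent matrix `(1 r; 0 1)` -/
noncomputable def xm (r : ℚ) : GL (Fin 2) ℚ := Matrix.GeneralLinearGroup.mkOfDetNeZero !![1, r; 0, 1] (by simp)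

/-- the lower unipotent matrix `(1 0; r 1)` -/
noncomputable def ym (r : ℚ) : GL (Fin 2) ℚ := Matrix.GeneralLinearGroup.mkOfDetNeZero !![1, 0; r, 1] (by simp)

/-- PIECE LIFT (helper276 does it): the metaplectic group `B` over `GL₂⁺(ℚ)`. -/
def S_LIFT : Prop :=
  ∃ (B : Type) (_ : Group B) (p : B →* GL (Fin 2) ℚ) (z T' w' : B) (X Y : ℚ → B),
    z ≠ 1 ∧ (∀ b, p b = 1 → b = 1 ∨ b = z) ∧ p z = 1 ∧ (∀ g ∈ G, ∃ b, p b = g) ∧
    p T' = T ∧ p w' = incl w ∧ (∀ r, p (X r) = xm r) ∧ (∀ r, p (Y r) = ym r) ∧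
    (∀ r s, X (r + s) = X r * X s) ∧ (∀ r, T' * X r * T'⁻¹ = X (2 * r)) ∧
    (∀ r, Y r = w' * X (-r) * w'⁻¹) ∧
    (∀ a₁ b₁ a₂ b₂ a₃ b₃ : ℚ, 0 < b₁ → 0 < b₂ → 0 < b₃ →
      xm a₁ * ym b₁ * xm a₂ * ym b₂ * xm a₃ * ym b₃ = 1 →
      X a₁ * Y b₁ * X a₂ * Y b₂ * X a₃ * Y b₃ = z)

/-- PIECE GRP (80-120 lines, from S_LIFT and S_NT): a double cover of `G` that is not residually finite.
Proof: `E := G.comap p ≤ B`, `π : E →* G` the restriction of `p` (surjective, kernel ⊆ {1, z}).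
`xm 1 ∈ G` (it is `incl` of an element), so `X 1, T', w', z ∈ E`.  Let `H ≤ E` have finite index, `H₀ = H.normalCore`
(normal, finite index), `q : E → E ⧸ H₀` finite.  `N := orderOf (q (X 1))`; `q (X 1)` is conjugate to `q (X 2) = q (X 1)²`
so `N = orderOf (g²)`, hence `N` is odd.  For `n : ℤ`, `k : ℕ`: `X (N n / 2^k) = T'^(-k) X(N n) T'^k ∈ E` is killed by `q`,
also `Y (N n / 2^k) = w' X(-N n/2^k) w'⁻¹`.  S_NT for `N`: `v = 2^g`, `r c = v + 1`, `r + 1 = N² s`; put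
`a₁ = -N s/v, b₁ = N v, a₂ = -N s c/v, b₂ = N, a₃ = -N s, b₃ = N c`; then
`xm a₁ * ym b₁ * xm a₂ * ym b₂ * xm a₃ * ym b₃ = 1` (checked numerically for N=1,r=3 and N=3,r=107; a `field_simp`/
`ring` identity after `s = (r+1)/N²`, `v = r c - 1`), so by S_LIFT the product of the lifts is `z`,
and `q z = 1`, `z ∈ H`. -/
def S_MP : Prop :=
  ∃ (E : Type) (_ : Group E) (π : E →* G), Function.Surjective π ∧ Finite π.ker ∧
    ∃ z : E, z ≠ 1 ∧ ∀ H : Subgroup E, H.FiniteIndex → z ∈ H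

end Run7.h276.DX
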